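import Pool.Agent.Lib.Pb52861c.Convert

/-!
# Universality of smooth affine cubic hypersurfaces and of linear sections of the general linear
group for the cycle class maps over a finite field

`SmVar F` is the category of smooth separated schemes of finite type over `F` (Mathlib schemes).
`C : CycleModel F K` consists of the two theories `M i j = CH^j(-, 2j - i) ⊗ K` and
`H i j = H^i(-_F̄, K(j))`, of Frobenius and of the cycle class map, with their published formal
properties. `C.Same X i j X' i' j'`: the cycle class maps of `X` in degrees `i j` and of `X'` in
degrees `i' j'`, with values in the invariants, are isomorphic.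
`hyp g hg` is the smooth affine hypersurface `g = 0`, `compl g` the open subset `g ≠ 0` of affine
space; for `g = det A` with `A` a matrix of linear forms (polynomials of degree at most one) it is
the intersection of an affine linear space of matrices with the general linear group.
`IsCubic g`: `g = ∑ y_k q_k(x) - 1` is of degree at most three, with all `q_k` of degree at most
two.
-/

set_option autoImplicit false

namespace Pool.Agent.Results.MP_b52861_ag.CubicHypersurfaces

open AlgebraicGeometry Pool.Agent.Lib.Pb52861c

theorem result (F : Type) [Field F] [Finite F] (K : Type) [Field K] (C : CycleModel F K) :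
    -- every cycle class map of an affine variety occurs for a cubic hypersurface, for its
    -- complement, and for a linear section of the general linear group, in arbitrarily high degree
    (∀ X : SmVar F, IsAffine X.sch → ∀ d : ℕ, X.Pure d → ∀ i j r : ℤ,
      ∃ (n : ℕ) (g : MvPolynomial (Fin n) F) (hg : SmoothHyp g) (i' j' : ℤ),
        IsCubic g ∧ IsLinearDet g ∧ InRange r i' j' ∧
        C.Same X i j (hyp g hg) i' j' ∧ C.Same X i j (compl g) (i' + 1) (j' + 1)) ∧
    ∀ Pr : SmVar F → ℤ → ℤ → Prop, (Pr = C.Inj ∨ Pr = C.Surj ∨ Pr = C.Bij) →
      -- the conjectures for all smooth affine varieties are equivalent to their special cases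
      (∀ r : ℤ, List.TFAE [ForAffine Pr fun _ _ => True, ForCubics Pr (InRange r),
        ForComplements Pr (InRange r), ForLinearSections Pr (InRange r),
        ForSymmetricSections Pr (InRange r), ForAlternatingSections Pr (InRange r)]) ∧
      -- in one degree `s = 2 j - i`
      (∀ r s : ℤ, (ForCubics Pr (InDegree r (s + 1)) → ForAffine Pr fun i j => 2 * j - i = s) ∧
        (ForComplements Pr (InDegree r (s + 2)) → ForAffine Pr fun i j => 2 * j - i = s)) ∧
      -- the theorem of Jouanolou and Thomason allows to replace affine by arbitrary
      (JouanolouThomason F → ∀ P : ℤ → ℤ → Prop, ForAffine Pr P → ForAll Pr P) :=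
  ⟨fun X hX d hd i j r => by
      obtain ⟨n, g, hg, i', j', h1, h2, h3, h4, h5⟩ := universality' C.theory X hX d hd i j r
      exact ⟨n, g, hg, i', j', h1, h2, h3, C.same_of h4, C.same_of h5⟩,
    fun _ hPr => ⟨fun r => tfae' C.theory (goodProp_of_mem C.theory hPr) r,
      fun r s => degree' C.theory (goodProp_of_mem C.theory hPr) r s,
      fun hJ P h => all_of_affine' C.theory (goodProp_of_mem C.theory hPr) hJ P h⟩⟩

end Pool.Agent.Results.MP_b52861_ag.CubicHypersurfaces
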