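import Pool.Agent.Lib.MilnorFib.Main
import Pool.Agent.Lib.MilnorVan.TorQuot
import Pool.Agent.Lib.GLS.Fin
import Pool.Agent.Lib.GLS.Low
import Pool.Agent.Lib.GLS.MatGL
import Pool.Agent.Lib.GLS.Bridge

/-!
# Milnor K-theory and homology of `GL_n` of fields with a pencil

`E` a field of transcendence degree at most `e` over a finite field, `M` a finite extension of
`E(t)` of separable degree at most `v`, `L` a finite abelian extension of `M` with group of exponent
`u`, `F` a subfield of `L` and `N = 2 ^ (e + 1) + 1 + ⌊log₂ (u v)⌋`. Then `K_n(F)` is torsion for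
`n ≥ N`, and for `N + c (N + 4) ≤ n + 1` the map `H_m(GL_n(F); ℚ) → H_m(GL_(n+1)(F); ℚ)`,
`A ↦ diag(A, 1)`, is surjective for `m ≤ n + 1 + c` and injective for `m ≤ n + c`.
-/

namespace Pool.Agent.Results.MP_b52861_ag.FibredFields

open CategoryTheory GLS Module

/-- Milnor's relation `[a] [1 - a] = 0` in the tensor algebra over `ℤ` of the multiplicative group
of the field `F` (written additively): `ι a * ι b` is set to zero whenever `a + b = 1`. -/
inductive SteinbergRel (F : Type) [Field F] :
    TensorAlgebra ℤ (Additive Fˣ) → TensorAlgebra ℤ (Additive Fˣ) → Prop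
  | steinberg (a b : Fˣ) (h : (a : F) + (b : F) = 1) :
      SteinbergRel F
        (TensorAlgebra.ι ℤ (Additive.ofMul a) * TensorAlgebra.ι ℤ (Additive.ofMul b)) 0

/-- Milnor's ring `K_*(F)`: the tensor algebra of `Fˣ` modulo the two-sided ideal generated by the
elements `[a] ⊗ [1 - a]`. -/
abbrev MilnorRing (F : Type) [Field F] : Type := RingQuot (SteinbergRel F)

/-- The symbol `[a]` of `a`, an element of `K_1(F)`. -/
def symb (F : Type) [Field F] (a : Fˣ) : MilnorRing F :=
  RingQuot.mkRingHom (SteinbergRel F) (TensorAlgebra.ι ℤ (Additive.ofMul a))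

/-- The Milnor K-group `K_n(F)`, as the degree `n` part of `K_*(F)`: the additive subgroup
generated by the products `{a_1, …, a_n}` of `n` symbols. -/
def MilnorK (F : Type) [Field F] (n : ℕ) : AddSubgroup (MilnorRing F) :=
  AddSubgroup.closure (Set.range fun a : Fin n → Fˣ => (List.ofFn fun i => symb F (a i)).prod)

/-- `A ↦ diag(A, 1)` on matrices -/
def blockMat (F : Type) [Field F] (n : ℕ) :
    Matrix (Fin n) (Fin n) F →* Matrix (Fin (n + 1)) (Fin (n + 1)) F where
  toFun A := (Matrix.fromBlocks A 0 0 (1 : Matrix (Fin 1) (Fin 1) F)).submatrix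
    finSumFinEquiv.symm finSumFinEquiv.symm
  map_one' := by
    rw [Matrix.fromBlocks_one, Matrix.submatrix_one_equiv]
  map_mul' A B := by
    rw [Matrix.submatrix_mul_equiv, Matrix.fromBlocks_multiply]
    simp

/-- the stabilization homomorphism `GL_n(F) → GL_(n+1)(F)`, `A ↦ diag(A, 1)` -/
def stab (F : Type) [Field F] (n : ℕ) : GL (Fin n) F →* GL (Fin (n + 1)) F :=
  Units.map (blockMat F n)

/-- the map `H_m(GL_n(F); ℚ) → H_m(GL_(n+1)(F); ℚ)` induced by `stab` and the identity of `ℚ` -/
noncomputable def stabH (F : Type) [Field F] (n m : ℕ) :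
    groupHomology (Rep.trivial ℚ (GL (Fin n) F) ℚ) m →ₗ[ℚ]
      groupHomology (Rep.trivial ℚ (GL (Fin (n + 1)) F) ℚ) m :=
  (groupHomology.map (A := Rep.trivial ℚ (GL (Fin n) F) ℚ)
    (B := Rep.trivial ℚ (GL (Fin (n + 1)) F) ℚ) (stab F n)
    (𝟙 (Rep.trivial ℚ (GL (Fin n) F) ℚ)) m).hom

/-! ### Proofs -/

theorem symb_mul {F : Type} [Field F] (a b : Fˣ) : symb F (a * b) = symb F a + symb F b := by
  unfold symb
  rw [ofMul_mul, map_add, map_add]

theorem symb_steinberg {F : Type} [Field F] (a b : Fˣ) (h : (a : F) + b = 1) :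
    symb F a * symb F b = 0 := by
  have h1 := RingQuot.mkRingHom_rel (SteinbergRel.steinberg a b h)
  rw [map_mul, map_zero] at h1
  exact h1

open Pool.Agent.Lib.MilnorVan MilnorFib in
theorem prod_zero {F B : Type} [Field F] [Ring B] {n : ℕ} (h : Van F n) {s : Fˣ → B}
    (hs : IsSymb s) (f : Fin n → Fˣ) : ((List.finRange n).map (fun i => s (f i))).prod = 0 := by
  have h1 := h B hs.tf _ (hsym_of_isSymb hs) ((List.finRange n).map (fun i => (f i : F)))
    (by simp)
  rw [List.map_map] at h1
  rw [← h1]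
  congr 1
  apply List.map_congr_left
  intro i _
  exact (ofS_unit s (f i)).symm

open Pool.Agent.Lib.MilnorVan MilnorFib in
theorem torsion_of_van {F : Type} [Field F] {n : ℕ} (h : Van F n) (x : MilnorRing F)
    (hx : x ∈ MilnorK F n) : ∃ c : ℕ, 0 < c ∧ c • x = 0 := by
  set q := (torCon (MilnorRing F)).mk' with hq
  let s : Fˣ → (torCon (MilnorRing F)).Quotient := fun a => q (symb F a)
  have hs : IsSymb s := by
    refine ⟨?_, ?_, ?_⟩
    · intro a b
      simp only [s]
      rw [symb_mul, map_add]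
    · intro a b h
      simp only [s]
      rw [← map_mul, symb_steinberg a b h, map_zero]
    · intro n x hn h
      exact torCon_tf n x hn h
  apply torsion_of_mk_eq_zero
  rw [MilnorK] at hx
  refine AddSubgroup.closure_induction (p := fun y _ => q y = 0) ?_ ?_ ?_ ?_ hx
  · rintro y ⟨a, rfl⟩
    have h1 := prod_zero h hs a
    simp only
    rw [map_list_prod, List.ofFn_eq_map, List.map_map, ← h1]
    rfl
  · exact map_zero q
  · intro y z _ _ hy hz
    rw [map_add, hy, hz, add_zero]
  · intro y _ hy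
    rw [map_neg, hy, neg_zero]

theorem stabH_sur (F : Type) [Field F] (n m : ℕ) (h : (glTriv F (Fin n → F)).Sur m) :
    Function.Surjective (stabH F n m) := by
  have h1 := stabP_sur F n m h
  exact bridge_sur (A := Rep.trivial ℚ (GL (Fin n) F) ℚ)
    (B := Rep.trivial ℚ (GL (Fin (n + 1)) F) ℚ) (stab F n)
    (𝟙 (Rep.trivial ℚ (GL (Fin n) F) ℚ)) (stabP F n) rfl (fun _ => rfl) m h1

theorem stabH_inj (F : Type) [Field F] (n m : ℕ) (h : (glTriv F (Fin n → F)).Inj m) :
    Function.Injective (stabH F n m) := by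
  have h1 := stabP_inj F n m h
  exact bridge_inj (A := Rep.trivial ℚ (GL (Fin n) F) ℚ)
    (B := Rep.trivial ℚ (GL (Fin (n + 1)) F) ℚ) (stab F n)
    (𝟙 (Rep.trivial ℚ (GL (Fin n) F) ℚ)) (stabP F n) rfl (fun _ => rfl) m h1

theorem range_le {a b N n : ℕ} (hab : a ≤ b) (h : N + b * (N + 4) ≤ n) :
    N + a * (N + 4) ≤ n :=
  le_trans (Nat.add_le_add_left (Nat.mul_le_mul_right _ hab) _) h

open MilnorFib in
theorem stab_of_van {F : Type} [Field F] (p : ℕ) [Fact p.Prime] [CharP F p] {N : ℕ} (hN1 : 1 ≤ N)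
    (h : Van F N) (n c : ℕ) (hn : N + c * (N + 4) ≤ n + 1) :
    (∀ m ≤ n + 1 + c, Function.Surjective (stabH F n m)) ∧
      ∀ m ≤ n + c, Function.Injective (stabH F n m) := by
  rcases finite_or_infinite F with hF | hF
  · exact ⟨fun m _ => stabH_sur F n m (fin_stab F (Fin n → F) m).1,
      fun m _ => stabH_inj F n m (fin_stab F (Fin n → F) m).2⟩
  · have hNv : ∀ (B : Type) [Ring B] (s : Fˣ → B), Pool.Agent.Lib.MilnorVan.IsSymb s →
        ∀ f : Fin N → Fˣ, ((List.finRange N).map (fun i => s (f i))).prod = 0 :=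
      fun B _ s hs f => prod_zero h hs f
    have hfr : finrank F (Fin n → F) = n := by simp
    have key : ∀ c' ≤ c, (glTriv F (Fin n → F)).Sur (c' + n + 1) ∧
        (glTriv F (Fin n → F)).Inj (c' + n) := by
      intro c' hc'
      have := stab_range p N hN1 hNv c' (Fin n → F)
        (by rw [hfr]; exact range_le hc' hn)
      rwa [hfr] at this
    have low := fun m => stab_low F (Fin n → F) p m
    rw [hfr] at low
    refine ⟨fun m hm => stabH_sur F n m ?_, fun m hm => stabH_inj F n m ?_⟩
    · rcases Nat.lt_or_ge n m with h | h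
      · have := (key (m - n - 1) (by omega)).1
        rwa [show m - n - 1 + n + 1 = m by omega] at this
      · exact (low m).1 h
    · rcases Nat.lt_or_ge m n with h | h
      · exact (low m).2 h
      · have := (key (m - n) (by omega)).2
        rwa [show m - n + n = m by omega] at this

open MilnorFib in
/-- The main theorem. -/
theorem result {k E M L F : Type} [Field k] [Finite k] [Field E] [Algebra k E] [Field M]
    [Algebra E M] [Field L] [Algebra M L] [Field F] [Algebra F L] (e u v : ℕ)
    (he : Algebra.trdeg k E ≤ e) (t : M) [FiniteDimensional (IntermediateField.adjoin E {t}) M]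
    (hv : Field.finSepDegree (IntermediateField.adjoin E {t}) M ≤ v)
    [FiniteDimensional M L] [IsGalois M L] (hcomm : ∀ σ τ : L ≃ₐ[M] L, σ * τ = τ * σ)
    (hu : 0 < u) (hexp : ∀ σ : L ≃ₐ[M] L, σ ^ u = 1) (N : ℕ)
    (hN : N = 2 ^ (e + 1) + 1 + Nat.log 2 (u * v)) :
    (∀ n ≥ N, ∀ x ∈ MilnorK F n, ∃ c : ℕ, 0 < c ∧ c • x = 0) ∧
    ∀ n c : ℕ, N + c * (N + 4) ≤ n + 1 →
      (∀ m ≤ n + 1 + c, Function.Surjective (stabH F n m)) ∧
        ∀ m ≤ n + c, Function.Injective (stabH F n m) := by
  have hL : Van L N := by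
    rw [hN]
    exact van_fib (k := k) e he t hv hcomm hu hexp
  let _ : Algebra E L := ((algebraMap M L).comp (algebraMap E M)).toAlgebra
  have : IsScalarTower E M L := IsScalarTower.of_algebraMap_eq' rfl
  have : Algebra.IsAlgebraic (IntermediateField.adjoin E {algebraMap M L t}) L :=
    isAlgebraic_comp t
  have hF : Van F N :=
    van_sub (k := k) e he (algebraMap M L t) (by rw [hN, add_assoc]; exact Nat.le_add_right _ _) hL
  have hN1 : 1 ≤ N := by
    rw [hN, add_assoc, add_comm, add_assoc]
    exact Nat.le_add_right _ _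
  obtain ⟨p, hpk⟩ := CharP.exists k
  have hpr : Fact p.Prime := ⟨CharP.char_is_prime k p⟩
  have hpE : CharP E p := charP_of_injective_algebraMap (algebraMap k E).injective p
  have hpM : CharP M p := charP_of_injective_algebraMap (algebraMap E M).injective p
  have hpL : CharP L p := charP_of_injective_algebraMap (algebraMap M L).injective p
  have hpF : CharP F p := (algebraMap F L).charP (algebraMap F L).injective p
  exact ⟨fun n hn x hx => torsion_of_van (hF.mono hn) x hx,
    fun n c hnc => stab_of_van p hN1 hF n c hnc⟩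

end Pool.Agent.Results.MP_b52861_ag.FibredFields
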