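import Pool.Agent.Lib.KTW.Main

/-!
# The weights of the rational K-theory of a field of transcendence degree `d` over a finite field

`F` a field of transcendence degree at most `d` over a finite field, `N = 2 ^ (d + 1)`, `m ≥ 1`.
If `N + m (N + 4) ≤ (J + 1) (N + 5)` then `K_m(F) ⊗ ℚ` has no weights `j > J`: its part of weight
`j` is zero, and on all of `K_m(F) ⊗ ℚ` the Adams operations `ψ^r` are combinations of
`r, r ^ 2, ..., r ^ J`. For example `j ≥ (1 - 1 / (N + 5)) m + 1`.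
-/

namespace Pool.Agent.Lib.Reserve.MP_b52861_ag.KTheoryWeightsOld

open KTW

theorem result {k F : Type} [Field k] [Finite k] [Field F] [Algebra k F] (d : ℕ)
    (hd : Algebra.trdeg k F ≤ d) (m J : ℕ) (hm : 1 ≤ m)
    (h : 2 ^ (d + 1) + m * (2 ^ (d + 1) + 4) ≤ (J + 1) * (2 ^ (d + 1) + 5)) :
    (∀ j > J, wt F m j = ⊥) ∧
      ∀ x : KQ F m, ∃ y : ℕ → KQ F m, ∀ r ≥ 1,
        psiK F m r x = ∑ j ∈ Finset.Icc 1 J, (r : ℚ) ^ j • y j := by
  have hs : ∀ n, J ≤ n → Function.Surjective (toK F m n) := fun n hn =>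
    toK_range (k := k) d hd m n hm (h.trans (Nat.mul_le_mul_right _ (Nat.succ_le_succ hn)))
  refine ⟨fun j hj => wt_bot_of_surj F m J j hj hs, fun x => ?_⟩
  obtain ⟨y, rfl⟩ := hs J le_rfl x
  exact psiK_poly F m J y

end Pool.Agent.Lib.Reserve.MP_b52861_ag.KTheoryWeightsOld
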