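import Pool.Agent.Lib.GLS.Fin
import Pool.Agent.Lib.GLS.Low
import Pool.Agent.Lib.GLS.MatGL
import Pool.Agent.Lib.GLS.Bridge
import Pool.Agent.Lib.MilnorVan.Main2

/-!
# Homological stability of slope larger than one

`F` a field of transcendence degree at most `d` over a finite field, `N = 2 ^ (d + 1)`. For
`N + c (N + 4) ≤ n + 1` the map `H_m(GL_n(F); ℚ) → H_m(GL_(n+1)(F); ℚ)`, `A ↦ diag(A, 1)`, is
surjective for `m ≤ n + 1 + c` and injective for `m ≤ n + c`.
-/

namespace Pool.Agent.Lib.Reserve.MP_b52861_ag.StableRangeOld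

open CategoryTheory GLS Module

/-- `A ↦ diag(A, 1)` on matrices -/
def blockMat (F : Type) [Field F] (n : ℕ) :
    Matrix (Fin n) (Fin n) F →* Matrix (Fin (n + 1)) (Fin (n + 1)) F where
  toFun A := (Matrix.fromBlocks A 0 0 (1 : Matrix (Fin 1) (Fin 1) F)).submatrix
    finSumFinEquiv.symm finSumFinEquiv.symm
  map_one' := by
    rw [Matrix.fromBlocks_one, Matrix.submatrix_one_equiv]
  map_mul' A B := by
    rw [Matrix.submatrix_mul_equiv, Matrix.fromBlocks_multiply]
    simp

/-- the stabilization homomorphism `GL_n(F) → GL_(n+1)(F)`, `A ↦ diag(A, 1)` -/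
def stab (F : Type) [Field F] (n : ℕ) : GL (Fin n) F →* GL (Fin (n + 1)) F :=
  Units.map (blockMat F n)

/-- the map `H_m(GL_n(F); ℚ) → H_m(GL_(n+1)(F); ℚ)` induced by `stab` and the identity of `ℚ` -/
noncomputable def stabH (F : Type) [Field F] (n m : ℕ) :
    groupHomology (Rep.trivial ℚ (GL (Fin n) F) ℚ) m →ₗ[ℚ]
      groupHomology (Rep.trivial ℚ (GL (Fin (n + 1)) F) ℚ) m :=
  (groupHomology.map (A := Rep.trivial ℚ (GL (Fin n) F) ℚ)
    (B := Rep.trivial ℚ (GL (Fin (n + 1)) F) ℚ) (stab F n)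
    (𝟙 (Rep.trivial ℚ (GL (Fin n) F) ℚ)) m).hom

theorem stabH_sur (F : Type) [Field F] (n m : ℕ) (h : (glTriv F (Fin n → F)).Sur m) :
    Function.Surjective (stabH F n m) := by
  have h1 := stabP_sur F n m h
  exact bridge_sur (A := Rep.trivial ℚ (GL (Fin n) F) ℚ)
    (B := Rep.trivial ℚ (GL (Fin (n + 1)) F) ℚ) (stab F n)
    (𝟙 (Rep.trivial ℚ (GL (Fin n) F) ℚ)) (stabP F n) rfl (fun _ => rfl) m h1

theorem stabH_inj (F : Type) [Field F] (n m : ℕ) (h : (glTriv F (Fin n → F)).Inj m) :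
    Function.Injective (stabH F n m) := by
  have h1 := stabP_inj F n m h
  exact bridge_inj (A := Rep.trivial ℚ (GL (Fin n) F) ℚ)
    (B := Rep.trivial ℚ (GL (Fin (n + 1)) F) ℚ) (stab F n)
    (𝟙 (Rep.trivial ℚ (GL (Fin n) F) ℚ)) (stabP F n) rfl (fun _ => rfl) m h1

theorem range_le {a b N n : ℕ} (hab : a ≤ b) (h : N + b * (N + 4) ≤ n) :
    N + a * (N + 4) ≤ n :=
  le_trans (Nat.add_le_add_left (Nat.mul_le_mul_right _ hab) _) h

theorem result {k F : Type} [Field k] [Finite k] [Field F] [Algebra k F] (d : ℕ)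
    (hd : Algebra.trdeg k F ≤ d) (n c : ℕ)
    (hn : 2 ^ (d + 1) + c * (2 ^ (d + 1) + 4) ≤ n + 1) :
    (∀ m ≤ n + 1 + c, Function.Surjective (stabH F n m)) ∧
      ∀ m ≤ n + c, Function.Injective (stabH F n m) := by
  rcases finite_or_infinite F with hF | hF
  · exact ⟨fun m _ => stabH_sur F n m (fin_stab F (Fin n → F) m).1,
      fun m _ => stabH_inj F n m (fin_stab F (Fin n → F) m).2⟩
  · obtain ⟨p, hpk⟩ := CharP.exists k
    have hpr : Fact p.Prime := ⟨CharP.char_is_prime k p⟩
    have hpF : CharP F p := charP_of_injective_algebraMap (algebraMap k F).injective p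
    set N := 2 ^ (d + 1) with hN
    have hN1 : 1 ≤ N := Nat.one_le_two_pow
    have hNv : ∀ (B : Type) [Ring B] (s : Fˣ → B), Pool.Agent.Lib.MilnorVan.IsSymb s →
        ∀ f : Fin N → Fˣ, ((List.finRange N).map (fun i => s (f i))).prod = 0 :=
      fun B _ s hs f => Pool.Agent.Lib.MilnorVan.vanish_field2 (k := k) hs d N hd le_rfl f
    have hfr : finrank F (Fin n → F) = n := by simp
    have key : ∀ c' ≤ c, (glTriv F (Fin n → F)).Sur (c' + n + 1) ∧
        (glTriv F (Fin n → F)).Inj (c' + n) := by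
      intro c' hc'
      have := stab_range p N hN1 hNv c' (Fin n → F)
        (by rw [hfr]; exact range_le hc' hn)
      rwa [hfr] at this
    have low := fun m => stab_low F (Fin n → F) p m
    rw [hfr] at low
    refine ⟨fun m hm => stabH_sur F n m ?_, fun m hm => stabH_inj F n m ?_⟩
    · rcases Nat.lt_or_ge n m with h | h
      · have := (key (m - n - 1) (by omega)).1
        rwa [show m - n - 1 + n + 1 = m by omega] at this
      · exact (low m).1 h
    · rcases Nat.lt_or_ge m n with h | h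
      · exact (low m).2 h
      · have := (key (m - n) (by omega)).2
        rwa [show m - n + n = m by omega] at this

end Pool.Agent.Lib.Reserve.MP_b52861_ag.StableRangeOld
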